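import Mathlib

set_option autoImplicit false

open Filter Topology

namespace Pool.Agent.Results.MP_d76ccc_an.TwoKneading

noncomputable section

/-- The Lozi map `L_{a,b}(x,y) = (1 + y - a|x|, b x)`. -/
def lozi (a b : ℝ) (z : ℝ × ℝ) : ℝ × ℝ := (1 + z.2 - a * |z.1|, b * z.1)

/-- The inverse of the Lozi map (for `b ≠ 0`), see `loziInv_lozi` and `lozi_loziInv`. -/
def loziInv (a b : ℝ) (z : ℝ × ℝ) : ℝ × ℝ := (z.2 / b, z.1 - 1 + a * |z.2 / b|)

theorem loziInv_lozi (a b : ℝ) (hb : b ≠ 0) (z : ℝ × ℝ) : loziInv a b (lozi a b z) = z := by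
  have h : b * z.1 / b = z.1 := by field_simp
  ext
  · simp [loziInv, lozi, h]
  · simp only [loziInv, lozi, h]
    ring

theorem lozi_loziInv (a b : ℝ) (hb : b ≠ 0) (z : ℝ × ℝ) : lozi a b (loziInv a b z) = z := by
  ext
  · simp only [loziInv, lozi]
    ring
  · simp only [loziInv, lozi]
    field_simp

/-- The parameter set of Misiurewicz, `b > 0`, `a √2 - b > 2`, `2 a + b < 4`. -/
def InM (a b : ℝ) : Prop := 0 < b ∧ 2 < a * √2 - b ∧ 2 * a + b < 4

/-- The fixed point `X` of `L_{a,b}` in the right half plane. -/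
def fixedPt (a b : ℝ) : ℝ × ℝ := (1 / (1 + a - b), b / (1 + a - b))

/-- The point `L_{a,b}^n (z)` for an integer `n`. -/
def orbit (a b : ℝ) (z : ℝ × ℝ) : ℤ → ℝ × ℝ
  | Int.ofNat n => (lozi a b)^[n] z
  | Int.negSucc n => (loziInv a b)^[n + 1] z

/-- The unstable manifold of `X`: the points whose backward orbit converges to `X`. -/
def unstableManifold (a b : ℝ) : Set (ℝ × ℝ) :=
  {z | Tendsto (fun n : ℕ => orbit a b z (-(n : ℤ))) atTop (𝓝 (fixedPt a b))}

/-- A turning point: a point `T` of the `x`-axis such that `W^u` contains a segment from a point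
`P` below the `x`-axis to `T` and a segment from `T` to a point `Q` above the `x`-axis. -/
def IsTurningPoint (a b : ℝ) (T : ℝ × ℝ) : Prop :=
  T.2 = 0 ∧ ∃ P Q : ℝ × ℝ, P.2 < 0 ∧ 0 < Q.2 ∧
    segment ℝ P T ⊆ unstableManifold a b ∧ segment ℝ T Q ⊆ unstableManifold a b

/-- The itinerary of `z`: the signs of the first coordinates of `L_{a,b}^n (z)`, `n ∈ ℤ`. -/
def itinerary (a b : ℝ) (z : ℝ × ℝ) (n : ℤ) : SignType := SignType.sign (orbit a b z n).1

/-- The kneading set: the set of itineraries of all turning points. -/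
def kneadingSet (a b : ℝ) : Set (ℤ → SignType) :=
  {k | ∃ T, IsTurningPoint a b T ∧ itinerary a b T = k}

/-- The bi-infinite sequence written `∞+ w ± . k +∞` in the problem: the symbol `±` (that is `0`)
is at index `-1`, the word `w` ends at index `-2`, the word `k` starts at index `0`, and all other
symbols are `+`. Here `true` stands for `+` and `false` for `-`. -/
def kneadSeq (w k : List Bool) (n : ℤ) : SignType :=
  if n = -1 then 0 else
    if 0 ≤ n then (if k.getD n.toNat true then 1 else -1)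
    else (if w.reverse.getD (-2 - n).toNat true then 1 else -1)

/-! ### Orbits -/

theorem orbit_nat (a b : ℝ) (z : ℝ × ℝ) (n : ℕ) : orbit a b z (n : ℤ) = (lozi a b)^[n] z := rfl

theorem orbit_neg (a b : ℝ) (z : ℝ × ℝ) (n : ℕ) :
    orbit a b z (-(n : ℤ)) = (loziInv a b)^[n] z := by
  cases n with
  | zero => rfl
  | succ n => rfl

theorem orbit_neg_eq {a b : ℝ} (hb : b ≠ 0) {y z : ℝ × ℝ} {n : ℕ} (h : (lozi a b)^[n] y = z) :
    orbit a b z (-(n : ℤ)) = y := by
  rw [orbit_neg, ← h]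
  exact Function.LeftInverse.iterate (loziInv_lozi a b hb) n y

/-- The bi-infinite sequence `orbit a b z` is the full orbit of `z` under the Lozi map. -/
theorem orbit_succ {a b : ℝ} (hb : b ≠ 0) (z : ℝ × ℝ) (n : ℤ) :
    orbit a b z (n + 1) = lozi a b (orbit a b z n) := by
  obtain ⟨m, hm | hm⟩ := Int.eq_nat_or_neg n
  · subst hm
    rw [orbit_nat, show (m : ℤ) + 1 = ((m + 1 : ℕ) : ℤ) by push_cast; ring, orbit_nat,
      Function.iterate_succ_apply']
  · subst hm
    cases m with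
    | zero => rfl
    | succ m =>
      rw [show -((m + 1 : ℕ) : ℤ) + 1 = -(m : ℤ) by push_cast; ring, orbit_neg, orbit_neg,
        Function.iterate_succ_apply', lozi_loziInv a b hb]

/-- For parameters in `M` the point `X` is a fixed point in the right half plane. -/
theorem fixedPt_spec {a b : ℝ} (h : InM a b) :
    0 < (fixedPt a b).1 ∧ lozi a b (fixedPt a b) = fixedPt a b := by
  obtain ⟨h1, h2, h3⟩ := h
  have s2 : √2 < 1.5 := by
    rw [Real.sqrt_lt' (by norm_num)]; norm_num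
  have s0 : 0 < √2 := Real.sqrt_pos.2 (by norm_num)
  have ha : 0 < a := by
    by_contra hc
    push Not at hc
    nlinarith
  have hD : 0 < 1 + a - b := by nlinarith
  have hx : 0 < 1 / (1 + a - b) := by positivity
  refine ⟨hx, ?_⟩
  ext
  · simp only [lozi, fixedPt, abs_of_pos hx]
    field_simp
    ring
  · simp only [lozi, fixedPt]
    ring

/-! ### Adapted coordinates -/

/-- The normalising factor `(1 + μ)(1 - ν) = 1 + a - b`. -/
def DD (μ ν : ℝ) : ℝ := (1 + μ) * (1 - ν)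

/-- The point with adapted coordinates `p`. -/
def pt (μ ν : ℝ) (p : ℝ × ℝ) : ℝ × ℝ := ((1 + p.1) / DD μ ν, (μ * ν + p.2) / DD μ ν)

/-- The affine branches of the Lozi map in adapted coordinates. -/
def stepS (a b : ℝ) (s : Bool) (p : ℝ × ℝ) : ℝ × ℝ :=
  if s then (-(a * p.1) + p.2, b * p.1) else (a * p.1 + p.2 + 2 * a, b * p.1)

def runS (a b : ℝ) : List Bool → ℝ × ℝ → ℝ × ℝ
  | [], p => p
  | s :: w, p => runS a b w (stepS a b s p)

def okS (a b : ℝ) : List Bool → ℝ × ℝ → Prop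
  | [], _ => True
  | s :: w, p => (if s then 0 < 1 + p.1 else 1 + p.1 < 0) ∧ okS a b w (stepS a b s p)

theorem lozi_pt {μ ν : ℝ} (hD : 0 < DD μ ν) (s : Bool) (p : ℝ × ℝ)
    (h : if s then 0 ≤ 1 + p.1 else 1 + p.1 ≤ 0) :
    lozi (μ - ν) (μ * ν) (pt μ ν p) = pt μ ν (stepS (μ - ν) (μ * ν) s p) := by
  have hD' : DD μ ν ≠ 0 := hD.ne'
  have e : DD μ ν = 1 + (μ - ν) - μ * ν := by unfold DD; ring
  cases s with
  | true =>
    simp only [if_true] at h
    have : |(1 + p.1) / DD μ ν| = (1 + p.1) / DD μ ν := abs_of_nonneg (div_nonneg h hD.le)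
    ext
    · simp only [lozi, pt, this, stepS, if_true]
      field_simp
      rw [e]; ring
    · simp only [lozi, pt, stepS, if_true]
      field_simp
  | false =>
    simp only [Bool.false_eq_true, if_false] at h
    have : |(1 + p.1) / DD μ ν| = -((1 + p.1) / DD μ ν) :=
      abs_of_nonpos (div_nonpos_of_nonpos_of_nonneg h hD.le)
    ext
    · simp only [lozi, pt, this, stepS, Bool.false_eq_true, if_false]
      field_simp
      rw [e]; ring
    · simp only [lozi, pt, stepS, Bool.false_eq_true, if_false]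
      field_simp

theorem iterate_of_okS {μ ν : ℝ} (hD : 0 < DD μ ν) : ∀ (w : List Bool) (p : ℝ × ℝ),
    okS (μ - ν) (μ * ν) w p →
    (lozi (μ - ν) (μ * ν))^[w.length] (pt μ ν p) = pt μ ν (runS (μ - ν) (μ * ν) w p)
  | [], _, _ => rfl
  | s :: w, p, h => by
    have h1 : if s then 0 ≤ 1 + p.1 else 1 + p.1 ≤ 0 := by
      have := h.1
      cases s <;> simp at this ⊢ <;> exact this.le
    simp only [List.length_cons, Function.iterate_succ, Function.comp_apply, runS]
    rw [lozi_pt hD s p h1]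
    exact iterate_of_okS hD w _ h.2

theorem sign_of_okS {μ ν : ℝ} (hD : 0 < DD μ ν) : ∀ (w : List Bool) (p : ℝ × ℝ),
    okS (μ - ν) (μ * ν) w p → ∀ i, i < w.length →
    SignType.sign ((lozi (μ - ν) (μ * ν))^[i] (pt μ ν p)).1 = if w.getD i true then 1 else -1
  | [], _, _ => fun i hi => absurd hi (Nat.not_lt_zero i)
  | s :: w, p, h => fun i hi => by
    cases i with
    | zero =>
      have := h.1
      cases s with
      | true =>
        simp at this
        simp [pt]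
        exact sign_pos (div_pos this hD)
      | false =>
        simp at this
        simp [pt]
        exact sign_neg (div_neg_of_neg_of_pos this hD)
    | succ i =>
      have h1 : if s then 0 ≤ 1 + p.1 else 1 + p.1 ≤ 0 := by
        have := h.1
        cases s <;> simp at this ⊢ <;> exact this.le
      simp only [Function.iterate_succ, Function.comp_apply]
      rw [lozi_pt hD s p h1]
      have := sign_of_okS hD w _ h.2 i (by simpa using hi)
      simpa using this

/-! ### The unstable and stable lines -/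

/-- Points of the unstable line. -/
def UU (μ ν r : ℝ) (k : ℕ) : ℝ × ℝ := pt μ ν (r * (-1 / μ) ^ k, -ν * (r * (-1 / μ) ^ k))

theorem lozi_UU {μ ν r : ℝ} (hD : 0 < DD μ ν) (hμ : μ ≠ 0) (k : ℕ)
    (h : 0 ≤ 1 + r * (-1 / μ) ^ (k + 1)) :
    lozi (μ - ν) (μ * ν) (UU μ ν r (k + 1)) = UU μ ν r k := by
  unfold UU
  rw [lozi_pt hD true _ (by simpa using h)]
  have e : (-μ) * (-1 / μ) ^ (k + 1) = (-1 / μ) ^ k := by
    rw [pow_succ]; field_simp
  congr 1
  ext
  · simp only [stepS, if_true]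
    linear_combination r * e
  · simp only [stepS, if_true]
    linear_combination (-ν * r) * e

theorem iterate_UU {μ ν r : ℝ} (hD : 0 < DD μ ν) (hμ : μ ≠ 0)
    (hpos : ∀ k : ℕ, 0 < 1 + r * (-1 / μ) ^ (k + 1)) (n i : ℕ) :
    (lozi (μ - ν) (μ * ν))^[n] (UU μ ν r (n + i)) = UU μ ν r i := by
  induction n with
  | zero => simp
  | succ n ih =>
    rw [Function.iterate_succ, Function.comp_apply, show n + 1 + i = (n + i) + 1 by ring,
      lozi_UU hD hμ _ (hpos _).le, ih]

theorem tendsto_UU {μ ν r : ℝ} (hμ : 1 < μ) :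
    Tendsto (UU μ ν r) atTop (𝓝 (fixedPt (μ - ν) (μ * ν))) := by
  have h1 : Tendsto (fun k : ℕ => (-1 / μ) ^ k) atTop (𝓝 0) := by
    apply tendsto_pow_atTop_nhds_zero_of_abs_lt_one
    rw [abs_div, abs_neg, abs_one, abs_of_pos (by linarith)]
    rw [div_lt_one (by linarith)]
    exact hμ
  have h2 : fixedPt (μ - ν) (μ * ν) = pt μ ν (r * 0, -ν * (r * 0)) := by
    have e : DD μ ν = 1 + (μ - ν) - μ * ν := by unfold DD; ring
    simp [fixedPt, pt, e]
  rw [h2]
  have hc : Continuous fun t : ℝ => pt μ ν (r * t, -ν * (r * t)) := by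
    unfold pt; fun_prop
  exact (hc.tendsto 0).comp h1

theorem mem_unstable {μ ν r : ℝ} (hD : 0 < DD μ ν) (hμ : 1 < μ) (hν : 0 < ν)
    (hpos : ∀ k : ℕ, 0 < 1 + r * (-1 / μ) ^ (k + 1)) (j : ℕ) :
    (lozi (μ - ν) (μ * ν))^[j] (UU μ ν r 0) ∈ unstableManifold (μ - ν) (μ * ν) := by
  have hμ0 : μ ≠ 0 := by linarith
  have hb : μ * ν ≠ 0 := mul_ne_zero hμ0 hν.ne'
  have h : ∀ n : ℕ, orbit (μ - ν) (μ * ν) ((lozi (μ - ν) (μ * ν))^[j] (UU μ ν r 0))
      (-((n + j : ℕ) : ℤ)) = UU μ ν r n := by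
    intro n
    apply orbit_neg_eq hb
    rw [add_comm n j, Function.iterate_add_apply]
    congr 1
    exact iterate_UU hD hμ0 hpos n 0
  change Tendsto _ _ _
  rw [← tendsto_add_atTop_iff_nat j]
  simp_rw [h]
  exact tendsto_UU hμ

theorem tail_pos {μ r : ℝ} (hμ : 1 < μ) (hr : r < 0) (hr2 : -r < μ ^ 2) (k : ℕ) :
    0 < 1 + r * (-1 / μ) ^ (k + 1) := by
  have hμ0 : 0 < μ := by linarith
  cases k with
  | zero =>
    have : r * (-1 / μ) ^ (0 + 1) = (-r) / μ := by ring
    rw [this]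
    have : 0 < -r / μ := div_pos (by linarith) hμ0
    linarith
  | succ k =>
    have h1 : |r * (-1 / μ) ^ (k + 1 + 1)| < 1 := by
      rw [abs_mul, abs_pow, abs_div, abs_neg, abs_one, abs_of_neg hr, abs_of_pos hμ0,
        show k + 1 + 1 = k + 2 by ring, pow_add]
      have h2 : (1 / μ) ^ k ≤ 1 := pow_le_one₀ (by positivity) (by
        rw [div_le_one hμ0]; exact hμ.le)
      have h3 : -r * (1 / μ) ^ 2 < 1 := by
        rw [div_pow, one_pow, mul_one_div, div_lt_one (by positivity)]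
        exact hr2
      have h4 : 0 ≤ -r * (1 / μ) ^ 2 := mul_nonneg (by linarith) (by positivity)
      calc -r * ((1 / μ) ^ k * (1 / μ) ^ 2) = (1 / μ) ^ k * (-r * (1 / μ) ^ 2) := by ring
        _ ≤ 1 * (-r * (1 / μ) ^ 2) := mul_le_mul_of_nonneg_right h2 h4
        _ < 1 := by linarith
    linarith [(abs_lt.1 h1).1]

theorem stable_iterate {μ ν s : ℝ} (hD : 0 < DD μ ν) (hν : 0 < ν) (hν1 : ν < 1)
    (hs : 0 < 1 + s) (k : ℕ) :
    (lozi (μ - ν) (μ * ν))^[k] (pt μ ν (s, μ * s)) = pt μ ν (ν ^ k * s, μ * (ν ^ k * s)) ∧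
      0 < 1 + ν ^ k * s := by
  have hpos : ∀ k : ℕ, 0 < 1 + ν ^ k * s := by
    intro k
    have h1 : ν ^ k ≤ 1 := pow_le_one₀ hν.le hν1.le
    have h2 : 0 < ν ^ k := pow_pos hν k
    nlinarith
  refine ⟨?_, hpos k⟩
  induction k with
  | zero => simp
  | succ k ih =>
    rw [Function.iterate_succ_apply', ih, lozi_pt hD true _ (by simpa using (hpos k).le)]
    congr 1
    ext
    · simp only [stepS, if_true]; ring
    · simp only [stepS, if_true]; ring

/-! ### Convex combinations -/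

theorem stepS_comb (a b : ℝ) (s : Bool) (p q : ℝ × ℝ) (c d : ℝ) (h : c + d = 1) :
    stepS a b s (c • p + d • q) = c • stepS a b s p + d • stepS a b s q := by
  cases s with
  | true =>
    ext
    · simp [stepS]; ring
    · simp [stepS]; ring
  | false =>
    have h' : 2 * a = (c + d) * (2 * a) := by rw [h]; ring
    ext
    · simp [stepS]; linear_combination h'
    · simp [stepS]; ring

theorem runS_comb (a b : ℝ) (c d : ℝ) (h : c + d = 1) : ∀ (w : List Bool) (p q : ℝ × ℝ),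
    runS a b w (c • p + d • q) = c • runS a b w p + d • runS a b w q
  | [], _, _ => rfl
  | s :: w, p, q => by
    simp only [runS]
    rw [stepS_comb a b s p q c d h, runS_comb a b c d h w]

theorem pt_comb (μ ν : ℝ) (c d : ℝ) (h : c + d = 1) (p q : ℝ × ℝ) :
    pt μ ν (c • p + d • q) = c • pt μ ν p + d • pt μ ν q := by
  have h' : (1 : ℝ) = c + d := h.symm
  ext
  · simp only [pt, Prod.fst_add, Prod.smul_fst, smul_eq_mul]
    rw [show 1 + (c * p.1 + d * q.1) = c * (1 + p.1) + d * (1 + q.1) by linear_combination -h]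
    ring
  · simp only [pt, Prod.snd_add, Prod.smul_snd, smul_eq_mul]
    rw [show μ * ν + (c * p.2 + d * q.2) = c * (μ * ν + p.2) + d * (μ * ν + q.2) by
      linear_combination (-(μ * ν)) * h]
    ring

/-! ### Turning points and their itineraries -/

theorem turning_point {μ ν : ℝ} (hμ : 1 < μ) (hν : 0 < ν) (hν1 : ν < 1) (w k : List Bool)
    {r r1 r2 s : ℝ}
    (htail : ∀ x ∈ Set.uIcc r1 r2, x < 0 ∧ -x < μ ^ 2)
    (hw : ∀ x ∈ Set.uIcc r1 r2, okS (μ - ν) (μ * ν) w (x, -ν * x))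
    (hr : r ∈ Set.uIcc r1 r2)
    (h1 : 1 + (runS (μ - ν) (μ * ν) w (r1, -ν * r1)).1 < 0)
    (h2 : 0 < 1 + (runS (μ - ν) (μ * ν) w (r2, -ν * r2)).1)
    (h0 : 1 + (runS (μ - ν) (μ * ν) w (r, -ν * r)).1 = 0)
    (hk : okS (μ - ν) (μ * ν) k
      ((μ - ν) + (runS (μ - ν) (μ * ν) w (r, -ν * r)).2, -(μ * ν)))
    (hks : runS (μ - ν) (μ * ν) k
      ((μ - ν) + (runS (μ - ν) (μ * ν) w (r, -ν * r)).2, -(μ * ν)) = (s, μ * s))
    (hs : 0 < 1 + s) :
    kneadSeq w k ∈ kneadingSet (μ - ν) (μ * ν) := by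
  have hμ0 : 0 < μ := by linarith
  have hD : 0 < DD μ ν := mul_pos (by linarith) (by linarith)
  have hb : μ * ν ≠ 0 := mul_ne_zero hμ0.ne' hν.ne'
  have hbpos : 0 < μ * ν := mul_pos hμ0 hν
  set a := μ - ν with ha
  set b := μ * ν with hbdef
  -- the point on the unstable line and its images
  have hpos : ∀ x ∈ Set.uIcc r1 r2, ∀ j : ℕ, 0 < 1 + x * (-1 / μ) ^ (j + 1) := fun x hx j =>
    tail_pos hμ (htail x hx).1 (htail x hx).2 j
  have hU0 : ∀ x, UU μ ν x 0 = pt μ ν (x, -ν * x) := by intro x; simp [UU]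
  have hrun : ∀ x ∈ Set.uIcc r1 r2, (lozi a b)^[w.length] (UU μ ν x 0) =
      pt μ ν (runS a b w (x, -ν * x)) := by
    intro x hx
    rw [hU0]
    exact iterate_of_okS hD w _ (hw x hx)
  -- the turning point
  set α : ℝ → ℝ × ℝ := fun x => runS a b w (x, -ν * x) with hα
  have hαr : (α r).1 = -1 := by
    have := h0
    simp only [hα]
    linarith
  set T : ℝ × ℝ := pt μ ν (a + (α r).2, -b) with hT
  have hstep : ∀ s' : Bool, stepS a b s' (α r) = (a + (α r).2, -b) := by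
    intro s'
    cases s'
    · ext
      · simp only [stepS, Bool.false_eq_true, if_false]; rw [hαr]; ring
      · simp only [stepS, Bool.false_eq_true, if_false]; rw [hαr]; ring
    · ext
      · simp only [stepS, if_true]; rw [hαr]; ring
      · simp only [stepS, if_true]; rw [hαr]; ring
  have hTl : lozi a b (pt μ ν (α r)) = T := by
    rw [lozi_pt hD true (α r) (by simp [hαr]), hstep]
  -- image of the unstable segment
  have himg : ∀ x ∈ Set.uIcc r1 r2, ∀ s' : Bool,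
      (if s' then 0 ≤ 1 + (α x).1 else 1 + (α x).1 ≤ 0) →
      pt μ ν (stepS a b s' (α x)) ∈ unstableManifold a b := by
    intro x hx s' hs'
    rw [← lozi_pt hD s' (α x) hs']
    have := mem_unstable hD hμ hν (hpos x hx) (w.length + 1)
    rw [Function.iterate_succ_apply', hrun x hx] at this
    exact this
  have hcomb : ∀ x y c d : ℝ, c + d = 1 → α (c * x + d * y) = c • α x + d • α y := by
    intro x y c d hcd
    simp only [hα]
    rw [← runS_comb a b c d hcd]
    congr 1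
    ext
    · simp
    · simp; ring
  have hmemr : ∀ c d : ℝ, 0 ≤ c → 0 ≤ d → c + d = 1 → ∀ x ∈ Set.uIcc r1 r2,
      ∀ y ∈ Set.uIcc r1 r2, c * x + d * y ∈ Set.uIcc r1 r2 := by
    intro c d hc hd hcd x hx y hy
    have := (convex_uIcc r1 r2) hx hy hc hd hcd
    simpa [smul_eq_mul] using this
  have hr1 : r1 ∈ Set.uIcc r1 r2 := Set.left_mem_uIcc
  have hr2 : r2 ∈ Set.uIcc r1 r2 := Set.right_mem_uIcc
  have hturn : IsTurningPoint a b T := by
    refine ⟨by simp [hT, pt, hbdef], pt μ ν (stepS a b false (α r1)),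
      pt μ ν (stepS a b true (α r2)), ?_, ?_, ?_, ?_⟩
    · simp only [pt, stepS, Bool.false_eq_true, if_false]
      apply div_neg_of_neg_of_pos _ hD
      have : b + b * (α r1).1 = b * (1 + (α r1).1) := by ring
      rw [← hbdef, this]
      exact mul_neg_of_pos_of_neg hbpos h1
    · simp only [pt, stepS, if_true]
      apply div_pos _ hD
      have : b + b * (α r2).1 = b * (1 + (α r2).1) := by ring
      rw [← hbdef, this]
      exact mul_pos hbpos h2
    · rintro z ⟨c, d, hc, hd, hcd, rfl⟩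
      rw [hT, ← hstep false, ← pt_comb μ ν c d hcd, ← stepS_comb a b false _ _ c d hcd,
        ← hcomb _ _ c d hcd]
      apply himg _ (hmemr c d hc hd hcd r1 hr1 r hr) false
      simp only [Bool.false_eq_true, if_false]
      rw [hcomb _ _ c d hcd]
      simp only [Prod.fst_add, Prod.smul_fst, smul_eq_mul, hαr]
      nlinarith
    · rintro z ⟨c, d, hc, hd, hcd, rfl⟩
      rw [hT, ← hstep true, ← pt_comb μ ν c d hcd, ← stepS_comb a b true _ _ c d hcd,
        ← hcomb _ _ c d hcd]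
      apply himg _ (hmemr c d hc hd hcd r hr r2 hr2) true
      simp only [if_true]
      rw [hcomb _ _ c d hcd]
      simp only [Prod.fst_add, Prod.smul_fst, smul_eq_mul, hαr]
      nlinarith
  refine ⟨T, hturn, ?_⟩
  funext n
  unfold itinerary kneadSeq
  by_cases hn1 : n = -1
  · subst hn1
    rw [if_pos rfl]
    have : orbit a b T (-((1 : ℕ) : ℤ)) = pt μ ν (α r) := orbit_neg_eq hb hTl
    have h' : orbit a b T (-1) = pt μ ν (α r) := by simpa using this
    rw [h']
    simp [pt, hαr]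
  rw [if_neg hn1]
  by_cases hn : 0 ≤ n
  · rw [if_pos hn]
    obtain ⟨m, rfl⟩ := Int.eq_ofNat_of_zero_le hn
    rw [Int.toNat_natCast, orbit_nat]
    by_cases hm : m < k.length
    · exact sign_of_okS hD k _ hk m hm
    · push Not at hm
      obtain ⟨j, rfl⟩ := Nat.exists_eq_add_of_le hm
      rw [add_comm k.length j, Function.iterate_add_apply, iterate_of_okS hD k _ hk, hks]
      obtain ⟨e1, e2⟩ := stable_iterate hD hν hν1 hs j
      rw [e1]
      have : k.getD (j + k.length) true = true := by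
        rw [List.getD_eq_default]
        omega
      rw [this, if_pos rfl]
      exact sign_pos (div_pos e2 hD)
  · rw [if_neg hn]
    push Not at hn
    obtain ⟨i, hi⟩ : ∃ i : ℕ, n = -((i + 2 : ℕ) : ℤ) := ⟨(-2 - n).toNat, by
      have : (0 : ℤ) ≤ -2 - n := by omega
      push_cast
      rw [Int.toNat_of_nonneg this]
      ring⟩
    subst hi
    have e : (-2 - -((i + 2 : ℕ) : ℤ)).toNat = i := by
      have : (-2 - -((i + 2 : ℕ) : ℤ)) = (i : ℤ) := by push_cast; ring
      rw [this]; simp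
    rw [e]
    by_cases hil : i < w.length
    · have h3 : orbit a b T (-((i + 2 : ℕ) : ℤ)) =
          (lozi a b)^[w.length - 1 - i] (pt μ ν (r, -ν * r)) := by
        apply orbit_neg_eq hb
        rw [← Function.iterate_add_apply, show i + 2 + (w.length - 1 - i) = w.length + 1 by omega,
          Function.iterate_succ_apply', ← hU0, hrun r hr]
        exact hTl
      rw [h3, sign_of_okS hD w _ (hw r hr) _ (by omega)]
      have h4 : w.reverse.getD i true = w.getD (w.length - 1 - i) true := by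
        rw [List.getD_eq_getElem _ _ (by simpa using hil), List.getElem_reverse,
          List.getD_eq_getElem _ _ (by omega)]
      rw [h4]
    · push Not at hil
      obtain ⟨j, rfl⟩ := Nat.exists_eq_add_of_le hil
      have h3 : orbit a b T (-((w.length + j + 2 : ℕ) : ℤ)) = UU μ ν r (j + 1) := by
        apply orbit_neg_eq hb
        rw [show w.length + j + 2 = (w.length + 1) + (j + 1) by ring, Function.iterate_add_apply,
          iterate_UU hD hμ0.ne' (hpos r hr) (j + 1) 0, Function.iterate_succ_apply', hrun r hr]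
        exact hTl
      rw [h3]
      have h4 : w.reverse.getD (w.length + j) true = true := by
        rw [List.getD_eq_default]
        simp
      rw [h4, if_pos rfl]
      exact sign_pos (div_pos (hpos r hr j) hD)

/-! ### Interval arithmetic -/

def Mem (x : ℝ) (X : ℚ × ℚ) : Prop := (X.1 : ℝ) ≤ x ∧ x ≤ (X.2 : ℝ)

def imul (A X : ℚ × ℚ) : ℚ × ℚ :=
  (if 0 ≤ X.1 then A.1 * X.1 else A.2 * X.1, if 0 ≤ X.2 then A.2 * X.2 else A.1 * X.2)

theorem imul_mem {A X : ℚ × ℚ} {a x : ℝ} (hA : 0 ≤ A.1) (ha : Mem a A) (hx : Mem x X) :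
    Mem (a * x) (imul A X) := by
  obtain ⟨a1, a2⟩ := ha
  obtain ⟨x1, x2⟩ := hx
  have hA' : (0 : ℝ) ≤ A.1 := by exact_mod_cast hA
  have ha0 : 0 ≤ a := hA'.trans a1
  constructor
  · unfold imul
    simp only
    split_ifs with h
    · have h' : (0 : ℝ) ≤ X.1 := by exact_mod_cast h
      push_cast
      exact mul_le_mul a1 x1 h' ha0
    · have h' : (X.1 : ℝ) ≤ 0 := by exact_mod_cast (not_le.1 h).le
      push_cast
      calc (A.2 : ℝ) * X.1 ≤ a * X.1 := mul_le_mul_of_nonpos_right a2 h'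
        _ ≤ a * x := mul_le_mul_of_nonneg_left x1 ha0
  · unfold imul
    simp only
    split_ifs with h
    · have h' : (0 : ℝ) ≤ X.2 := by exact_mod_cast h
      push_cast
      calc a * x ≤ a * X.2 := mul_le_mul_of_nonneg_left x2 ha0
        _ ≤ A.2 * X.2 := mul_le_mul_of_nonneg_right a2 h'
    · have h' : (X.2 : ℝ) ≤ 0 := by exact_mod_cast (not_le.1 h).le
      push_cast
      calc a * x ≤ a * X.2 := mul_le_mul_of_nonneg_left x2 ha0
        _ ≤ A.1 * X.2 := mul_le_mul_of_nonpos_right a1 h'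

def MemP (p : ℝ × ℝ) (P : (ℚ × ℚ) × (ℚ × ℚ)) : Prop := Mem p.1 P.1 ∧ Mem p.2 P.2

def stepI (A B : ℚ × ℚ) (s : Bool) (P : (ℚ × ℚ) × (ℚ × ℚ)) : (ℚ × ℚ) × (ℚ × ℚ) :=
  if s then ((-(imul A P.1).2 + P.2.1, -(imul A P.1).1 + P.2.2), imul B P.1)
  else (((imul A P.1).1 + P.2.1 + 2 * A.1, (imul A P.1).2 + P.2.2 + 2 * A.2), imul B P.1)

def runI (A B : ℚ × ℚ) : List Bool → (ℚ × ℚ) × (ℚ × ℚ) → (ℚ × ℚ) × (ℚ × ℚ)
  | [], P => P
  | s :: w, P => runI A B w (stepI A B s P)

def okI (A B : ℚ × ℚ) : List Bool → (ℚ × ℚ) × (ℚ × ℚ) → Bool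
  | [], _ => true
  | s :: w, P => (if s then decide (0 < 1 + P.1.1) else decide (1 + P.1.2 < 0)) &&
      okI A B w (stepI A B s P)

theorem stepI_mem {A B : ℚ × ℚ} {a b : ℝ} (hA : 0 ≤ A.1) (hB : 0 ≤ B.1) (ha : Mem a A)
    (hb : Mem b B) (s : Bool) {p : ℝ × ℝ} {P : (ℚ × ℚ) × (ℚ × ℚ)} (hp : MemP p P) :
    MemP (stepS a b s p) (stepI A B s P) := by
  have h1 := imul_mem hA ha hp.1
  have h2 := imul_mem hB hb hp.1
  have h3 := hp.2
  unfold stepS stepI
  cases s with
  | true =>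
    simp only [if_true]
    refine ⟨⟨?_, ?_⟩, h2⟩
    · push_cast; linarith [h1.2, h3.1]
    · push_cast; linarith [h1.1, h3.2]
  | false =>
    simp only [Bool.false_eq_true, if_false]
    refine ⟨⟨?_, ?_⟩, h2⟩
    · push_cast; linarith [h1.1, h3.1, ha.1]
    · push_cast; linarith [h1.2, h3.2, ha.2]

theorem runI_mem {A B : ℚ × ℚ} {a b : ℝ} (hA : 0 ≤ A.1) (hB : 0 ≤ B.1) (ha : Mem a A)
    (hb : Mem b B) : ∀ (w : List Bool) {p : ℝ × ℝ} {P : (ℚ × ℚ) × (ℚ × ℚ)}, MemP p P →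
    MemP (runS a b w p) (runI A B w P)
  | [], _, _, h => h
  | s :: w, _, _, h => runI_mem hA hB ha hb w (stepI_mem hA hB ha hb s h)

theorem okS_of_okI {A B : ℚ × ℚ} {a b : ℝ} (hA : 0 ≤ A.1) (hB : 0 ≤ B.1) (ha : Mem a A)
    (hb : Mem b B) : ∀ (w : List Bool) {p : ℝ × ℝ} {P : (ℚ × ℚ) × (ℚ × ℚ)}, MemP p P →
    okI A B w P = true → okS a b w p
  | [], _, _, _, _ => trivial
  | s :: w, p, P, h, hok => by
    simp only [okI, Bool.and_eq_true] at hok
    refine ⟨?_, okS_of_okI hA hB ha hb w (stepI_mem hA hB ha hb s h) hok.2⟩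
    have h1 := hok.1
    cases s with
    | true =>
      simp only [if_true, decide_eq_true_eq] at h1 ⊢
      have : (0 : ℝ) < 1 + P.1.1 := by exact_mod_cast h1
      linarith [h.1.1]
    | false =>
      simp only [Bool.false_eq_true, if_false, decide_eq_true_eq] at h1 ⊢
      have : (1 : ℝ) + P.1.2 < 0 := by exact_mod_cast h1
      linarith [h.1.2]

def startI (N X : ℚ × ℚ) : (ℚ × ℚ) × (ℚ × ℚ) := (X, imul N (-X.2, -X.1))

theorem startI_mem {N X : ℚ × ℚ} {ν x : ℝ} (hN : 0 ≤ N.1) (hν : Mem ν N) (hx : Mem x X) :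
    MemP (x, -ν * x) (startI N X) := by
  refine ⟨hx, ?_⟩
  have : Mem (-x) (-X.2, -X.1) := ⟨by push_cast; linarith [hx.2], by push_cast; linarith [hx.1]⟩
  have h := imul_mem hN hν this
  have e : ν * -x = -ν * x := by ring
  rw [e] at h
  exact h

def start2 (A B : ℚ × ℚ) (P : (ℚ × ℚ) × (ℚ × ℚ)) : (ℚ × ℚ) × (ℚ × ℚ) :=
  ((A.1 + P.2.1, A.2 + P.2.2), (-B.2, -B.1))

def checkT (mlo mhi nlo nhi : ℚ) (w k : List Bool) (x1 x2 : ℚ) : Bool :=
  let A : ℚ × ℚ := (mlo - nhi, mhi - nlo)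
  let B : ℚ × ℚ := (mlo * nlo, mhi * nhi)
  let N : ℚ × ℚ := (nlo, nhi)
  let X : ℚ × ℚ := (min x1 x2, max x1 x2)
  okI A B w (startI N X) &&
  decide ((runI A B w (startI N (x1, x1))).1.2 < -1) &&
  decide (-1 < (runI A B w (startI N (x2, x2))).1.1) &&
  okI A B k (start2 A B (runI A B w (startI N X))) &&
  decide (0 < 1 + (runI A B k (start2 A B (runI A B w (startI N X)))).1.1) &&
  decide (max x1 x2 < 0) && decide (-(min x1 x2) < mlo ^ 2)

/-- the resultant condition for the word pair `w, k` -/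
def RR (μ ν : ℝ) (w k : List Bool) : ℝ :=
  let a := μ - ν
  let b := μ * ν
  let α : ℝ → ℝ × ℝ := fun x => runS a b w (x, -ν * x)
  let G : ℝ → ℝ := fun x => (runS a b k (a + (α x).2, -b)).2 - μ * (runS a b k (a + (α x).2, -b)).1
  (1 + (α 0).1) * (G 1 - G 0) - ((α 1).1 - (α 0).1) * G 0

theorem knead_of_checkT {mlo mhi nlo nhi : ℚ} {w k : List Bool} {x1 x2 : ℚ} {μ ν : ℝ}
    (hc : checkT mlo mhi nlo nhi w k x1 x2 = true) (hm1 : 1 < mlo) (hn0 : 0 < nlo) (hn1 : nhi < 1)
    (hμ : Mem μ (mlo, mhi)) (hν : Mem ν (nlo, nhi)) (hR : RR μ ν w k = 0) :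
    kneadSeq w k ∈ kneadingSet (μ - ν) (μ * ν) := by
  have hm1' : (1 : ℝ) < mlo := by exact_mod_cast hm1
  have hn0' : (0 : ℝ) < nlo := by exact_mod_cast hn0
  have hn1' : (nhi : ℝ) < 1 := by exact_mod_cast hn1
  have hμ1 : 1 < μ := lt_of_lt_of_le hm1' hμ.1
  have hν0 : 0 < ν := lt_of_lt_of_le hn0' hν.1
  have hν1 : ν < 1 := lt_of_le_of_lt hν.2 hn1'
  simp only [checkT, Bool.and_eq_true, decide_eq_true_eq] at hc
  obtain ⟨⟨⟨⟨⟨⟨c1, c2⟩, c3⟩, c4⟩, c5⟩, c6⟩, c7⟩ := hc
  set A : ℚ × ℚ := (mlo - nhi, mhi - nlo) with hAdef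
  set B : ℚ × ℚ := (mlo * nlo, mhi * nhi) with hBdef
  set X : ℚ × ℚ := (min x1 x2, max x1 x2) with hXdef
  have hA : 0 ≤ A.1 := by simp only [hAdef]; linarith
  have hB : 0 ≤ B.1 := by
    simp only [hBdef]
    exact mul_nonneg (by linarith) hn0.le
  have hN : (0 : ℚ) ≤ ((nlo, nhi) : ℚ × ℚ).1 := hn0.le
  have ha : Mem (μ - ν) A := by
    refine ⟨?_, ?_⟩
    · simp only [hAdef]; push_cast; linarith [hμ.1, hν.2]
    · simp only [hAdef]; push_cast; linarith [hμ.2, hν.1]
  have hb : Mem (μ * ν) B := by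
    refine ⟨?_, ?_⟩
    · simp only [hBdef]; push_cast
      exact mul_le_mul hμ.1 hν.1 hn0'.le (by linarith)
    · simp only [hBdef]; push_cast
      exact mul_le_mul hμ.2 hν.2 hν0.le (le_trans (by linarith) hμ.2)
  have hXmem : ∀ x ∈ Set.uIcc (x1 : ℝ) x2, Mem x X := by
    intro x hx
    rw [Set.mem_uIcc] at hx
    constructor
    · simp only [hXdef]; push_cast
      rcases hx with h | h
      · exact (min_le_left _ _).trans h.1
      · exact (min_le_right _ _).trans h.1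
    · simp only [hXdef]; push_cast
      rcases hx with h | h
      · exact h.2.trans (le_max_right _ _)
      · exact h.2.trans (le_max_left _ _)
  have hmem1 : Mem (x1 : ℝ) (x1, x1) := ⟨le_refl _, le_refl _⟩
  have hmem2 : Mem (x2 : ℝ) (x2, x2) := ⟨le_refl _, le_refl _⟩
  have h1 : 1 + (runS (μ - ν) (μ * ν) w ((x1 : ℝ), -ν * x1)).1 < 0 := by
    have h := (runI_mem hA hB ha hb w (startI_mem hN hν hmem1)).1.2
    have c2' : (((runI A B w (startI (nlo, nhi) (x1, x1))).1.2 : ℚ) : ℝ) < -1 := by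
      exact_mod_cast c2
    linarith
  have h2 : 0 < 1 + (runS (μ - ν) (μ * ν) w ((x2 : ℝ), -ν * x2)).1 := by
    have h := (runI_mem hA hB ha hb w (startI_mem hN hν hmem2)).1.1
    have c3' : (-1 : ℝ) < (((runI A B w (startI (nlo, nhi) (x2, x2))).1.1 : ℚ) : ℝ) := by
      exact_mod_cast c3
    linarith
  set α : ℝ → ℝ × ℝ := fun x => runS (μ - ν) (μ * ν) w (x, -ν * x) with hα
  have hcomb : ∀ x y c d : ℝ, c + d = 1 → α (c * x + d * y) = c • α x + d • α y := by
    intro x y c d hcd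
    simp only [hα]
    rw [← runS_comb _ _ c d hcd]
    congr 1
    ext
    · simp
    · simp; ring
  -- the root
  obtain ⟨r, hr, h0⟩ : ∃ r ∈ Set.uIcc (x1 : ℝ) x2, 1 + (α r).1 = 0 := by
    set u := -(1 + (α x1).1) with hu
    set v := 1 + (α x2).1 with hv
    have hu0 : 0 < u := by simp only [hu, hα]; linarith
    have hv0 : 0 < v := by simp only [hv, hα]; linarith
    have hcd : v / (u + v) + u / (u + v) = 1 := by field_simp; ring
    refine ⟨v / (u + v) * x1 + u / (u + v) * x2, ?_, ?_⟩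
    · have := (convex_uIcc (x1 : ℝ) x2) Set.left_mem_uIcc Set.right_mem_uIcc
        (div_nonneg hv0.le (by linarith)) (div_nonneg hu0.le (by linarith)) hcd
      simpa [smul_eq_mul] using this
    · rw [hcomb _ _ _ _ hcd]
      simp only [Prod.fst_add, Prod.smul_fst, smul_eq_mul]
      have e1 : (α x1).1 = -1 - u := by rw [hu]; ring
      have e2 : (α x2).1 = v - 1 := by rw [hv]; ring
      rw [e1, e2]
      field_simp
      ring
  have hXr := hXmem r hr
  have hstart := startI_mem hN hν hXr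
  have hrunI := runI_mem hA hB ha hb w hstart
  have hst2 : MemP ((μ - ν) + (α r).2, -(μ * ν)) (start2 A B (runI A B w (startI (nlo, nhi) X))) := by
    refine ⟨⟨?_, ?_⟩, ⟨?_, ?_⟩⟩
    · simp only [start2]; push_cast; linarith [ha.1, hrunI.2.1]
    · simp only [start2]; push_cast; linarith [ha.2, hrunI.2.2]
    · simp only [start2]; push_cast; linarith [hb.2]
    · simp only [start2]; push_cast; linarith [hb.1]
  have hk := okS_of_okI hA hB ha hb k hst2 c4
  have hfin := (runI_mem hA hB ha hb k hst2).1.1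
  have c5' : (0 : ℝ) < 1 + (((runI A B k (start2 A B (runI A B w
      (startI (nlo, nhi) X)))).1.1 : ℚ) : ℝ) := by exact_mod_cast c5
  -- the stable line condition
  have hline : (runS (μ - ν) (μ * ν) k ((μ - ν) + (α r).2, -(μ * ν))).2 =
      μ * (runS (μ - ν) (μ * ν) k ((μ - ν) + (α r).2, -(μ * ν))).1 := by
    set G : ℝ → ℝ := fun x => (runS (μ - ν) (μ * ν) k ((μ - ν) + (α x).2, -(μ * ν))).2 -
      μ * (runS (μ - ν) (μ * ν) k ((μ - ν) + (α x).2, -(μ * ν))).1 with hG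
    have hα01 : ∀ x, (α x).1 = (α 0).1 + x * ((α 1).1 - (α 0).1) := by
      intro x
      have := hcomb 0 1 (1 - x) x (by ring)
      simp only [mul_zero, mul_one, zero_add] at this
      rw [this]
      simp only [Prod.fst_add, Prod.smul_fst, smul_eq_mul]
      ring
    have hG01 : ∀ x, G x = G 0 + x * (G 1 - G 0) := by
      intro x
      have h3 := hcomb 0 1 (1 - x) x (by ring)
      simp only [mul_zero, mul_one, zero_add] at h3
      have h4 : (((μ - ν) + (α x).2, -(μ * ν)) : ℝ × ℝ) =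
          (1 - x) • (((μ - ν) + (α 0).2, -(μ * ν)) : ℝ × ℝ) +
          x • (((μ - ν) + (α 1).2, -(μ * ν)) : ℝ × ℝ) := by
        rw [h3]
        ext
        · simp; ring
        · simp; ring
      simp only [hG]
      rw [h4, runS_comb _ _ (1 - x) x (by ring)]
      simp only [Prod.fst_add, Prod.smul_fst, Prod.snd_add, Prod.smul_snd, smul_eq_mul]
      ring
    have hγ : (α 1).1 - (α 0).1 ≠ 0 := by
      intro h
      have e1 := hα01 x1
      have e2 := hα01 x2
      rw [h, mul_zero, add_zero] at e1 e2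
      have h1' : 1 + (α x1).1 < 0 := h1
      have h2' : 0 < 1 + (α x2).1 := h2
      linarith
    have hR' : (1 + (α 0).1) * (G 1 - G 0) - ((α 1).1 - (α 0).1) * G 0 = 0 := hR
    have h5 : ((α 1).1 - (α 0).1) * G r = 0 := by
      rw [hG01 r]
      have h6 := hα01 r
      have h7 : r * ((α 1).1 - (α 0).1) = -(1 + (α 0).1) := by linarith
      linear_combination (G 1 - G 0) * h7 - hR'
    have h8 : G r = 0 := (mul_eq_zero.1 h5).resolve_left hγ
    simp only [hG] at h8
    linarith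
  apply turning_point (r := r) (r1 := x1) (r2 := x2)
    (s := (runS (μ - ν) (μ * ν) k ((μ - ν) + (α r).2, -(μ * ν))).1) hμ1 hν0 hν1 w k
  · intro x hx
    have := hXmem x hx
    have c6' : ((max x1 x2 : ℚ) : ℝ) < 0 := by exact_mod_cast c6
    have c7' : -((min x1 x2 : ℚ) : ℝ) < (mlo : ℝ) ^ 2 := by exact_mod_cast c7
    refine ⟨lt_of_le_of_lt this.2 c6', ?_⟩
    have h9 : (mlo : ℝ) ^ 2 ≤ μ ^ 2 := by
      apply pow_le_pow_left₀ (by linarith) hμ.1
    have h10 : ((min x1 x2 : ℚ) : ℝ) ≤ x := this.1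
    linarith
  · intro x hx
    exact okS_of_okI hA hB ha hb w (startI_mem hN hν (hXmem x hx)) c1
  · exact hr
  · exact h1
  · exact h2
  · exact h0
  · exact hk
  · ext
    · rfl
    · exact hline
  · linarith

/-! ### Polynomials in two variables -/

/-- Evaluation of a polynomial with nonnegative integer coefficients, given as a list of
`(i, j, c)` standing for `c m^i n^j`. -/
def pe {K : Type} [Semiring K] (l : List (ℕ × ℕ × ℕ)) (m n : K) : K :=
  (l.map fun t => (t.2.2 : K) * m ^ t.1 * n ^ t.2.1).sum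

def pem {K : Type} [Semiring K] (l : List (ℕ × ℕ × ℕ)) (m n : K) : K :=
  (l.map fun t => (t.2.2 : K) * ((t.1 : K) * m ^ (t.1 - 1)) * n ^ t.2.1).sum

def pen {K : Type} [Semiring K] (l : List (ℕ × ℕ × ℕ)) (m n : K) : K :=
  (l.map fun t => (t.2.2 : K) * m ^ t.1 * ((t.2.1 : K) * n ^ (t.2.1 - 1))).sum

theorem pe_cast (l : List (ℕ × ℕ × ℕ)) (m n : ℚ) :
    pe l (m : ℝ) (n : ℝ) = ((pe l m n : ℚ) : ℝ) := by
  induction l with
  | nil => simp [pe]
  | cons t l ih =>
    unfold pe at ih ⊢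
    simp only [List.map_cons, List.sum_cons, ih]
    push_cast
    ring

theorem pem_cast (l : List (ℕ × ℕ × ℕ)) (m n : ℚ) :
    pem l (m : ℝ) (n : ℝ) = ((pem l m n : ℚ) : ℝ) := by
  induction l with
  | nil => simp [pem]
  | cons t l ih =>
    unfold pem at ih ⊢
    simp only [List.map_cons, List.sum_cons, ih]
    push_cast
    ring

theorem pen_cast (l : List (ℕ × ℕ × ℕ)) (m n : ℚ) :
    pen l (m : ℝ) (n : ℝ) = ((pen l m n : ℚ) : ℝ) := by
  induction l with
  | nil => simp [pen]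
  | cons t l ih =>
    unfold pen at ih ⊢
    simp only [List.map_cons, List.sum_cons, ih]
    push_cast
    ring

theorem pe_continuous (l : List (ℕ × ℕ × ℕ)) :
    Continuous fun p : ℝ × ℝ => pe l p.1 p.2 := by
  induction l with
  | nil => simp only [pe, List.map_nil, List.sum_nil]; exact continuous_const
  | cons t l ih =>
    unfold pe at ih ⊢
    simp only [List.map_cons, List.sum_cons]
    exact Continuous.add (by fun_prop) ih

theorem pow_diff {lo hi x y : ℝ} (h0 : 0 ≤ lo) (h1 : lo ≤ x) (h2 : x ≤ y) (h3 : y ≤ hi) (i : ℕ) :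
    (i : ℝ) * lo ^ (i - 1) * (y - x) ≤ y ^ i - x ^ i ∧
      y ^ i - x ^ i ≤ (i : ℝ) * hi ^ (i - 1) * (y - x) := by
  have hx : 0 ≤ x := h0.trans h1
  have hy : 0 ≤ y := hx.trans h2
  have hd : 0 ≤ y - x := by linarith
  induction i with
  | zero => simp
  | succ i ih =>
    have e : y ^ (i + 1) - x ^ (i + 1) = y * (y ^ i - x ^ i) + x ^ i * (y - x) := by ring
    have e2 : ∀ t : ℝ, (i : ℝ) * t ^ (i - 1) * t = i * t ^ i := by
      intro t
      cases i with
      | zero => simp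
      | succ j => simp [pow_succ]; ring
    rw [e]
    push_cast
    constructor
    · have h5 : lo ^ i ≤ x ^ i := pow_le_pow_left₀ h0 h1 i
      have h6 : lo * ((i : ℝ) * lo ^ (i - 1) * (y - x)) ≤ y * (y ^ i - x ^ i) := by
        apply mul_le_mul (h1.trans h2) ih.1 _ hy
        positivity
      have h7 : lo ^ i * (y - x) ≤ x ^ i * (y - x) := mul_le_mul_of_nonneg_right h5 hd
      have h8 : lo * ((i : ℝ) * lo ^ (i - 1) * (y - x)) = i * lo ^ i * (y - x) := by
        rw [← e2 lo]; ring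
      rw [h8] at h6
      linarith
    · have h5 : x ^ i ≤ hi ^ i := pow_le_pow_left₀ hx (h2.trans h3) i
      have hhi : 0 ≤ hi := hy.trans h3
      have h6 : y * (y ^ i - x ^ i) ≤ hi * ((i : ℝ) * hi ^ (i - 1) * (y - x)) := by
        apply mul_le_mul h3 ih.2 _ hhi
        have := pow_le_pow_left₀ hx h2 i
        linarith
      have h7 : x ^ i * (y - x) ≤ hi ^ i * (y - x) := mul_le_mul_of_nonneg_right h5 hd
      have h8 : hi * ((i : ℝ) * hi ^ (i - 1) * (y - x)) = i * hi ^ i * (y - x) := by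
        rw [← e2 hi]; ring
      rw [h8] at h6
      linarith

theorem pe_diff_m (l : List (ℕ × ℕ × ℕ)) {mlo mhi nlo nhi m m' n : ℝ} (h0 : 0 ≤ mlo)
    (h0' : 0 ≤ nlo) (h1 : mlo ≤ m) (h2 : m ≤ m') (h3 : m' ≤ mhi) (h4 : nlo ≤ n) (h5 : n ≤ nhi) :
    pem l mlo nlo * (m' - m) ≤ pe l m' n - pe l m n ∧
      pe l m' n - pe l m n ≤ pem l mhi nhi * (m' - m) := by
  have hn : 0 ≤ n := h0'.trans h4
  have hd : 0 ≤ m' - m := by linarith
  have hmhi : 0 ≤ mhi := h0.trans (h1.trans (h2.trans h3))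
  induction l with
  | nil => simp [pe, pem]
  | cons t l ih =>
    obtain ⟨i, j, c⟩ := t
    unfold pe pem at ih ⊢
    simp only [List.map_cons, List.sum_cons]
    obtain ⟨p1, p2⟩ := pow_diff h0 h1 h2 h3 i
    have q1 : nlo ^ j ≤ n ^ j := pow_le_pow_left₀ h0' h4 j
    have q2 : n ^ j ≤ nhi ^ j := pow_le_pow_left₀ hn h5 j
    have q0 : 0 ≤ nlo ^ j := pow_nonneg h0' j
    have hc : (0 : ℝ) ≤ c := Nat.cast_nonneg c
    constructor
    · have h6 : ((i : ℝ) * mlo ^ (i - 1) * (m' - m)) * nlo ^ j ≤ (m' ^ i - m ^ i) * n ^ j := by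
        apply mul_le_mul p1 q1 q0
        exact le_trans (by positivity) p1
      have h7 := mul_le_mul_of_nonneg_left h6 hc
      nlinarith [ih.1, h7]
    · have h6 : (m' ^ i - m ^ i) * n ^ j ≤ ((i : ℝ) * mhi ^ (i - 1) * (m' - m)) * nhi ^ j := by
        apply mul_le_mul p2 q2 (pow_nonneg hn j)
        positivity
      have h7 := mul_le_mul_of_nonneg_left h6 hc
      nlinarith [ih.2, h7]

theorem pe_diff_n (l : List (ℕ × ℕ × ℕ)) {mlo mhi nlo nhi m n n' : ℝ} (h0 : 0 ≤ mlo)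
    (h0' : 0 ≤ nlo) (h1 : mlo ≤ m) (h3 : m ≤ mhi) (h4 : nlo ≤ n) (h2 : n ≤ n') (h5 : n' ≤ nhi) :
    pen l mlo nlo * (n' - n) ≤ pe l m n' - pe l m n ∧
      pe l m n' - pe l m n ≤ pen l mhi nhi * (n' - n) := by
  have hm : 0 ≤ m := h0.trans h1
  have hd : 0 ≤ n' - n := by linarith
  have hnhi : 0 ≤ nhi := h0'.trans (h4.trans (h2.trans h5))
  induction l with
  | nil => simp [pe, pen]
  | cons t l ih =>
    obtain ⟨i, j, c⟩ := t
    unfold pe pen at ih ⊢
    simp only [List.map_cons, List.sum_cons]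
    obtain ⟨p1, p2⟩ := pow_diff h0' h4 h2 h5 j
    have q1 : mlo ^ i ≤ m ^ i := pow_le_pow_left₀ h0 h1 i
    have q2 : m ^ i ≤ mhi ^ i := pow_le_pow_left₀ hm h3 i
    have q0 : 0 ≤ mlo ^ i := pow_nonneg h0 i
    have hc : (0 : ℝ) ≤ c := Nat.cast_nonneg c
    constructor
    · have h6 : mlo ^ i * ((j : ℝ) * nlo ^ (j - 1) * (n' - n)) ≤ m ^ i * (n' ^ j - n ^ j) := by
        apply mul_le_mul q1 p1 _ (pow_nonneg hm i)
        positivity
      have h7 := mul_le_mul_of_nonneg_left h6 hc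
      nlinarith [ih.1, h7]
    · have h6 : m ^ i * (n' ^ j - n ^ j) ≤ mhi ^ i * ((j : ℝ) * nhi ^ (j - 1) * (n' - n)) := by
        apply mul_le_mul q2 p2 _ (pow_nonneg (hm.trans h3) i)
        exact le_trans (by positivity) p1
      have h7 := mul_le_mul_of_nonneg_left h6 hc
      nlinarith [ih.2, h7]

/-! ### Common zeros of two functions on a square -/

theorem exists_common_zero (f g : ℝ → ℝ → ℝ) (hf : Continuous fun p : ℝ × ℝ => f p.1 p.2)
    (hg : Continuous fun p : ℝ × ℝ => g p.1 p.2) (m0 n0 δ c1 c2 c3 c4 : ℝ) (hδ : 0 < δ)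
    (hc1 : 0 < c1) (hc2 : 0 ≤ c2) (hc3 : 0 ≤ c3)
    (hfm : ∀ n, |n - n0| ≤ δ → ∀ m m', |m - m0| ≤ δ → |m' - m0| ≤ δ → m ≤ m' →
      c1 * (m' - m) ≤ f m' n - f m n)
    (hfn : ∀ m, |m - m0| ≤ δ → ∀ n n', |n - n0| ≤ δ → |n' - n0| ≤ δ → n ≤ n' →
      |f m n' - f m n| ≤ c2 * (n' - n))
    (hgm : ∀ n, |n - n0| ≤ δ → ∀ m m', |m - m0| ≤ δ → |m' - m0| ≤ δ → m ≤ m' →
      |g m' n - g m n| ≤ c3 * (m' - m))
    (hgn : ∀ m, |m - m0| ≤ δ → ∀ n n', |n - n0| ≤ δ → |n' - n0| ≤ δ → n ≤ n' →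
      c4 * (n' - n) ≤ g m n' - g m n)
    (hf0 : |f m0 n0| < (c1 - c2) * δ) (hg0 : |g m0 n0| < (c4 - c3) * δ) :
    ∃ m n, |m - m0| ≤ δ ∧ |n - n0| ≤ δ ∧ f m n = 0 ∧ g m n = 0 := by
  have hm0 : |m0 - m0| ≤ δ := by simp [hδ.le]
  have hn0 : |n0 - n0| ≤ δ := by simp [hδ.le]
  have hmp : |m0 + δ - m0| ≤ δ := by simp [abs_of_pos hδ]
  have hmm : |m0 - δ - m0| ≤ δ := by
    rw [show m0 - δ - m0 = -δ by ring, abs_neg, abs_of_pos hδ]
  have hnp : |n0 + δ - n0| ≤ δ := by simp [abs_of_pos hδ]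
  have hnm : |n0 - δ - n0| ≤ δ := by
    rw [show n0 - δ - n0 = -δ by ring, abs_neg, abs_of_pos hδ]
  have hfn' : ∀ m, |m - m0| ≤ δ → ∀ n n', |n - n0| ≤ δ → |n' - n0| ≤ δ →
      |f m n' - f m n| ≤ c2 * |n' - n| := by
    intro m hm n n' hn hn'
    rcases le_total n n' with h | h
    · rw [abs_of_nonneg (by linarith : 0 ≤ n' - n)]
      exact hfn m hm n n' hn hn' h
    · rw [abs_sub_comm (f m n'), abs_of_nonpos (by linarith : n' - n ≤ 0)]
      have := hfn m hm n' n hn' hn h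
      linarith
  have hgm' : ∀ n, |n - n0| ≤ δ → ∀ m m', |m - m0| ≤ δ → |m' - m0| ≤ δ →
      |g m' n - g m n| ≤ c3 * |m' - m| := by
    intro n hn m m' hm hm'
    rcases le_total m m' with h | h
    · rw [abs_of_nonneg (by linarith : 0 ≤ m' - m)]
      exact hgm n hn m m' hm hm' h
    · rw [abs_sub_comm (g m' n), abs_of_nonpos (by linarith : m' - m ≤ 0)]
      have := hgm n hn m' m hm' hm h
      linarith
  -- for every n there is a zero of f
  have hex : ∀ n, |n - n0| ≤ δ → ∃ m, |m - m0| ≤ δ ∧ f m n = 0 := by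
    intro n hn
    have h1 := abs_le.1 (hfn' m0 hm0 n0 n hn0 hn)
    have h2 : c2 * |n - n0| ≤ c2 * δ := mul_le_mul_of_nonneg_left hn hc2
    have h3 := hfm n hn m0 (m0 + δ) hm0 hmp (by linarith)
    have h4 := hfm n hn (m0 - δ) m0 hmm hm0 (by linarith)
    have h5 := abs_lt.1 hf0
    have hpos : 0 ≤ f (m0 + δ) n := by nlinarith
    have hneg : f (m0 - δ) n ≤ 0 := by nlinarith
    have hcont : ContinuousOn (fun m => f m n) (Set.Icc (m0 - δ) (m0 + δ)) := by
      have : Continuous fun m => f m n := by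
        have := hf.comp (Continuous.prodMk_left n)
        exact this
      exact this.continuousOn
    obtain ⟨m, hm, hm'⟩ := intermediate_value_Icc (by linarith) hcont ⟨hneg, hpos⟩
    refine ⟨m, ?_, hm'⟩
    rw [abs_le]
    constructor <;> linarith [hm.1, hm.2]
  choose! A hA1 hA2 using hex
  -- A is Lipschitz
  have hAlip : ∀ n n', |n - n0| ≤ δ → |n' - n0| ≤ δ → c1 * |A n' - A n| ≤ c2 * |n' - n| := by
    intro n n' hn hn'
    have h1 := hfn' (A n) (hA1 n hn) n n' hn hn'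
    rw [hA2 n hn, sub_zero] at h1
    have h2 : c1 * |A n' - A n| ≤ |f (A n) n'| := by
      rcases le_total (A n) (A n') with h | h
      · have h3 := hfm n' hn' (A n) (A n') (hA1 n hn) (hA1 n' hn') h
        rw [hA2 n' hn'] at h3
        rw [abs_of_nonneg (by linarith : 0 ≤ A n' - A n)]
        have := neg_le_abs (f (A n) n')
        linarith
      · have h3 := hfm n' hn' (A n') (A n) (hA1 n' hn') (hA1 n hn) h
        rw [hA2 n' hn'] at h3
        rw [abs_of_nonpos (by linarith : A n' - A n ≤ 0)]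
        have := le_abs_self (f (A n) n')
        linarith
    linarith
  have hAcont : ContinuousOn A (Set.Icc (n0 - δ) (n0 + δ)) := by
    have hL : ∀ n ∈ Set.Icc (n0 - δ) (n0 + δ), ∀ n' ∈ Set.Icc (n0 - δ) (n0 + δ),
        |A n - A n'| ≤ (c2 / c1) * |n - n'| := by
      intro n hn n' hn'
      have h1 := hAlip n' n (by rw [abs_le]; constructor <;> linarith [hn'.1, hn'.2])
        (by rw [abs_le]; constructor <;> linarith [hn.1, hn.2])
      rw [div_mul_eq_mul_div, le_div_iff₀ hc1]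
      linarith
    have hLip : LipschitzOnWith (Real.toNNReal (c2 / c1)) A (Set.Icc (n0 - δ) (n0 + δ)) := by
      apply LipschitzOnWith.of_dist_le_mul
      intro n hn n' hn'
      rw [Real.dist_eq, Real.dist_eq, Real.coe_toNNReal _ (div_nonneg hc2 hc1.le)]
      exact hL n hn n' hn'
    exact hLip.continuousOn
  have hHcont : ContinuousOn (fun n => g (A n) n) (Set.Icc (n0 - δ) (n0 + δ)) := by
    have : ContinuousOn (fun n => (A n, n)) (Set.Icc (n0 - δ) (n0 + δ)) :=
      hAcont.prodMk continuousOn_id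
    exact hg.comp_continuousOn this
  have h5 := abs_lt.1 hg0
  have hHp : 0 ≤ g (A (n0 + δ)) (n0 + δ) := by
    have hA' := hA1 _ hnp
    have h1 := abs_le.1 (hgm' n0 hn0 m0 (A (n0 + δ)) hm0 hA')
    have h2 : c3 * |A (n0 + δ) - m0| ≤ c3 * δ := mul_le_mul_of_nonneg_left hA' hc3
    have h3 := hgn (A (n0 + δ)) hA' n0 (n0 + δ) hn0 hnp (by linarith)
    nlinarith
  have hHm : g (A (n0 - δ)) (n0 - δ) ≤ 0 := by
    have hA' := hA1 _ hnm
    have h1 := abs_le.1 (hgm' n0 hn0 m0 (A (n0 - δ)) hm0 hA')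
    have h2 : c3 * |A (n0 - δ) - m0| ≤ c3 * δ := mul_le_mul_of_nonneg_left hA' hc3
    have h3 := hgn (A (n0 - δ)) hA' (n0 - δ) n0 hnm hn0 (by linarith)
    nlinarith
  obtain ⟨n, hn, hn'⟩ := intermediate_value_Icc (by linarith) hHcont ⟨hHm, hHp⟩
  have hnn : |n - n0| ≤ δ := by rw [abs_le]; constructor <;> linarith [hn.1, hn.2]
  exact ⟨A n, n, hA1 n hnn, hnn, hA2 n hnn, hn'⟩

/-! ### The two kneading sequences -/

/-- The word `(-, -, +)`. -/
def w1 : List Bool := [false, false, true]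
/-- The word `(+, -, -, -)`. -/
def k1 : List Bool := [true, false, false, false]
/-- The word `(-, +, +)`. -/
def w2 : List Bool := [false, true, true]
/-- The word `(+, -, -, -, +, +, +, +, -)`. -/
def k2 : List Bool := [true, false, false, false, true, true, true, true, false]

def P1 : List (ℕ × ℕ × ℕ) := 
  [(0, 4, 4), (0, 6, 8), (1, 4, 36), (1, 7, 20), (2, 2, 20), (2, 4, 76), (2, 8, 8), (3, 2, 40),
   (3, 5, 76), (3, 8, 4), (4, 0, 2), (4, 2, 44), (4, 6, 64), (5, 0, 2), (5, 3, 52), (5, 6, 24),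
   (6, 0, 2), (6, 4, 40), (7, 1, 7), (7, 4, 10), (8, 2, 2)]
def N1 : List (ℕ × ℕ × ℕ) := 
  [(0, 5, 8), (0, 8, 4), (1, 3, 16), (1, 5, 40), (2, 3, 56), (2, 6, 48), (3, 1, 10), (3, 3, 76),
   (3, 7, 36), (4, 1, 14), (4, 4, 76), (4, 7, 16), (5, 1, 14), (5, 5, 64), (6, 2, 24),
   (6, 5, 20), (7, 3, 14), (8, 0, 1), (8, 3, 2)]
def P2 : List (ℕ × ℕ × ℕ) := 
  [(0, 9, 8), (0, 11, 8), (1, 3, 12), (1, 9, 56), (1, 12, 28), (2, 7, 96), (2, 9, 192),
   (3, 1, 10), (3, 7, 340), (3, 10, 224), (4, 5, 172), (4, 7, 660), (4, 12, 28), (5, 5, 496),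
   (5, 8, 568), (6, 3, 124), (6, 5, 744), (6, 10, 176), (7, 3, 252), (7, 6, 624), (8, 1, 18),
   (8, 3, 288), (8, 8, 284), (9, 1, 22), (9, 4, 304), (10, 1, 22), (10, 6, 152), (11, 2, 52),
   (12, 4, 18), (13, 0, 1)]
def N2 : List (ℕ × ℕ × ℕ) := 
  [(0, 4, 4), (0, 10, 8), (0, 13, 4), (1, 8, 40), (1, 10, 56), (2, 2, 16), (2, 8, 176),
   (2, 11, 96), (3, 6, 148), (3, 8, 420), (3, 13, 4), (4, 0, 2), (4, 6, 468), (4, 9, 400),
   (5, 4, 164), (5, 6, 792), (5, 11, 88), (6, 4, 412), (6, 7, 656), (7, 2, 64), (7, 4, 540),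
   (7, 9, 256), (8, 2, 100), (8, 5, 488), (9, 0, 2), (9, 2, 104), (9, 7, 240), (10, 0, 2),
   (10, 3, 148), (11, 0, 2), (11, 5, 68), (12, 1, 11), (13, 3, 2)]

def F1 (m n : ℝ) : ℝ := pe P1 m n - pe N1 m n
def F2 (m n : ℝ) : ℝ := pe P2 m n - pe N2 m n

theorem RR1 (μ ν : ℝ) : RR μ ν w1 k1 = -μ * F1 μ ν := by
  simp only [RR, runS, stepS, w1, k1, F1, pe, P1, N1, if_true, Bool.false_eq_true, if_false,
    List.map_cons, List.map_nil, List.sum_cons, List.sum_nil]
  push_cast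
  ring

theorem RR2 (μ ν : ℝ) : RR μ ν w2 k2 = -μ * F2 μ ν := by
  simp only [RR, runS, stepS, w2, k2, F2, pe, P2, N2, if_true, Bool.false_eq_true, if_false,
    List.map_cons, List.map_nil, List.sum_cons, List.sum_nil]
  push_cast
  ring

/-! ### Existence of the parameters -/

theorem diff_m (P N : List (ℕ × ℕ × ℕ)) (m0 n0 δ a1 a2 : ℚ) (hm : 0 ≤ m0 - δ) (hn : 0 ≤ n0 - δ)
    (h1 : a1 ≤ pem P (m0 - δ) (n0 - δ) - pem N (m0 + δ) (n0 + δ))
    (h2 : pem P (m0 + δ) (n0 + δ) - pem N (m0 - δ) (n0 - δ) ≤ a2) (n : ℝ) (hn' : |n - n0| ≤ δ)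
    (m m' : ℝ) (hm1 : |m - m0| ≤ δ) (hm2 : |m' - m0| ≤ δ) (hmm : m ≤ m') :
    (a1 : ℝ) * (m' - m) ≤ (pe P m' n - pe N m' n) - (pe P m n - pe N m n) ∧
      (pe P m' n - pe N m' n) - (pe P m n - pe N m n) ≤ (a2 : ℝ) * (m' - m) := by
  have hmR : (0 : ℝ) ≤ ((m0 - δ : ℚ) : ℝ) := by exact_mod_cast hm
  have hnR : (0 : ℝ) ≤ ((n0 - δ : ℚ) : ℝ) := by exact_mod_cast hn
  obtain ⟨x1, x2⟩ := abs_le.1 hm1
  obtain ⟨y1, y2⟩ := abs_le.1 hm2
  obtain ⟨z1, z2⟩ := abs_le.1 hn'
  have e1 : ((m0 - δ : ℚ) : ℝ) ≤ m := by push_cast; linarith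
  have e2 : m' ≤ ((m0 + δ : ℚ) : ℝ) := by push_cast; linarith
  have e3 : ((n0 - δ : ℚ) : ℝ) ≤ n := by push_cast; linarith
  have e4 : n ≤ ((n0 + δ : ℚ) : ℝ) := by push_cast; linarith
  have p := pe_diff_m P hmR hnR e1 hmm e2 e3 e4
  have q := pe_diff_m N hmR hnR e1 hmm e2 e3 e4
  rw [pem_cast, pem_cast] at p q
  have hd : 0 ≤ m' - m := by linarith
  have h1' : (a1 : ℝ) ≤ ((pem P (m0 - δ) (n0 - δ) : ℚ) : ℝ) - ((pem N (m0 + δ) (n0 + δ) : ℚ) : ℝ) := by
    exact_mod_cast h1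
  have h2' : ((pem P (m0 + δ) (n0 + δ) : ℚ) : ℝ) - ((pem N (m0 - δ) (n0 - δ) : ℚ) : ℝ) ≤ (a2 : ℝ) := by
    exact_mod_cast h2
  have r1 := mul_le_mul_of_nonneg_right h1' hd
  have r2 := mul_le_mul_of_nonneg_right h2' hd
  constructor
  · linarith [p.1, q.2]
  · linarith [p.2, q.1]

theorem diff_n (P N : List (ℕ × ℕ × ℕ)) (m0 n0 δ a1 a2 : ℚ) (hm : 0 ≤ m0 - δ) (hn : 0 ≤ n0 - δ)
    (h1 : a1 ≤ pen P (m0 - δ) (n0 - δ) - pen N (m0 + δ) (n0 + δ))
    (h2 : pen P (m0 + δ) (n0 + δ) - pen N (m0 - δ) (n0 - δ) ≤ a2) (m : ℝ) (hm' : |m - m0| ≤ δ)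
    (n n' : ℝ) (hn1 : |n - n0| ≤ δ) (hn2 : |n' - n0| ≤ δ) (hnn : n ≤ n') :
    (a1 : ℝ) * (n' - n) ≤ (pe P m n' - pe N m n') - (pe P m n - pe N m n) ∧
      (pe P m n' - pe N m n') - (pe P m n - pe N m n) ≤ (a2 : ℝ) * (n' - n) := by
  have hmR : (0 : ℝ) ≤ ((m0 - δ : ℚ) : ℝ) := by exact_mod_cast hm
  have hnR : (0 : ℝ) ≤ ((n0 - δ : ℚ) : ℝ) := by exact_mod_cast hn
  obtain ⟨x1, x2⟩ := abs_le.1 hn1
  obtain ⟨y1, y2⟩ := abs_le.1 hn2
  obtain ⟨z1, z2⟩ := abs_le.1 hm'
  have e1 : ((m0 - δ : ℚ) : ℝ) ≤ m := by push_cast; linarith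
  have e2 : m ≤ ((m0 + δ : ℚ) : ℝ) := by push_cast; linarith
  have e3 : ((n0 - δ : ℚ) : ℝ) ≤ n := by push_cast; linarith
  have e4 : n' ≤ ((n0 + δ : ℚ) : ℝ) := by push_cast; linarith
  have p := pe_diff_n P hmR hnR e1 e2 e3 hnn e4
  have q := pe_diff_n N hmR hnR e1 e2 e3 hnn e4
  rw [pen_cast, pen_cast] at p q
  have hd : 0 ≤ n' - n := by linarith
  have h1' : (a1 : ℝ) ≤ ((pen P (m0 - δ) (n0 - δ) : ℚ) : ℝ) - ((pen N (m0 + δ) (n0 + δ) : ℚ) : ℝ) := by
    exact_mod_cast h1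
  have h2' : ((pen P (m0 + δ) (n0 + δ) : ℚ) : ℝ) - ((pen N (m0 - δ) (n0 - δ) : ℚ) : ℝ) ≤ (a2 : ℝ) := by
    exact_mod_cast h2
  have r1 := mul_le_mul_of_nonneg_right h1' hd
  have r2 := mul_le_mul_of_nonneg_right h2' hd
  constructor
  · linarith [p.1, q.2]
  · linarith [p.2, q.1]

theorem F1_cont : Continuous fun p : ℝ × ℝ => F1 p.1 p.2 :=
  (pe_continuous P1).sub (pe_continuous N1)

theorem F2_cont : Continuous fun p : ℝ × ℝ => F2 p.1 p.2 :=
  (pe_continuous P2).sub (pe_continuous N2)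

theorem center_bound (P N : List (ℕ × ℕ × ℕ)) (m0 n0 e : ℚ)
    (h : -e < pe P m0 n0 - pe N m0 n0 ∧ pe P m0 n0 - pe N m0 n0 < e) :
    -(e : ℝ) < pe P (m0 : ℝ) (n0 : ℝ) - pe N (m0 : ℝ) (n0 : ℝ) ∧
      pe P (m0 : ℝ) (n0 : ℝ) - pe N (m0 : ℝ) (n0 : ℝ) < (e : ℝ) := by
  rw [pe_cast, pe_cast]
  exact_mod_cast h

/-- Centres of the two boxes and their common half side. -/
def mA : ℚ := 19158296851917 / 10000000000000
def nA : ℚ := 108334661369 / 1250000000000
def mB : ℚ := 974835373707 / 500000000000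
def nB : ℚ := 525689814143 / 2500000000000
def dd : ℚ := 1 / 1000000000

theorem zeroA : ∃ m n : ℝ, |m - mA| ≤ dd ∧ |n - nA| ≤ dd ∧ F1 m n = 0 ∧ F2 m n = 0 := by
  have hd : (0 : ℝ) < (dd : ℝ) := by norm_num [dd]
  have am := diff_m P1 N1 mA nA dd (-179) (-177) (by decide +kernel) (by decide +kernel)
    (by decide +kernel) (by decide +kernel)
  have an := diff_n P1 N1 mA nA dd 44 45 (by decide +kernel) (by decide +kernel)
    (by decide +kernel) (by decide +kernel)
  have bm := diff_m P2 N2 mA nA dd 3899 3900 (by decide +kernel) (by decide +kernel)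
    (by decide +kernel) (by decide +kernel)
  have bn := diff_n P2 N2 mA nA dd (-643) (-642) (by decide +kernel) (by decide +kernel)
    (by decide +kernel) (by decide +kernel)
  have c1 := center_bound P1 N1 mA nA (1 / 1000000000) (by decide +kernel)
  have c2 := center_bound P2 N2 mA nA (1 / 1000000000) (by decide +kernel)
  push_cast at am an bm bn c1 c2
  obtain ⟨m, n, hm, hn, hf, hg⟩ := exists_common_zero (fun m n => -F1 m n)
    (fun m n => F2 m n + 22 * F1 m n) F1_cont.neg (F2_cont.add (continuous_const.mul F1_cont))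
    mA nA dd 177 45 39 325 hd (by norm_num) (by norm_num) (by norm_num)
    (by
      intro n hn m m' hm hm' h
      have := am n hn m m' hm hm' h
      simp only [F1]; linarith [this.2])
    (by
      intro m hm n n' hn hn' h
      have := an m hm n n' hn hn' h
      have h' : 0 ≤ n' - n := by linarith
      simp only [F1]; rw [abs_le]; constructor <;> linarith [this.1, this.2])
    (by
      intro n hn m m' hm hm' h
      have h1 := am n hn m m' hm hm' h
      have h2 := bm n hn m m' hm hm' h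
      have h' : 0 ≤ m' - m := by linarith
      simp only [F1, F2]; rw [abs_le]
      constructor <;> linarith [h1.1, h1.2, h2.1, h2.2])
    (by
      intro m hm n n' hn hn' h
      have h1 := an m hm n n' hn hn' h
      have h2 := bn m hm n n' hn hn' h
      have h' : 0 ≤ n' - n := by linarith
      simp only [F1, F2]
      linarith [h1.1, h1.2, h2.1, h2.2])
    (by
      have e : (dd : ℝ) = 1 / 1000000000 := by norm_num [dd]
      rw [e]; simp only [F1]; rw [abs_lt]
      constructor <;> linarith [c1.1, c1.2])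
    (by
      have e : (dd : ℝ) = 1 / 1000000000 := by norm_num [dd]
      rw [e]; simp only [F1, F2]; rw [abs_lt]
      constructor <;> linarith [c1.1, c1.2, c2.1, c2.2])
  have hf' : F1 m n = 0 := by simpa using hf
  refine ⟨m, n, hm, hn, hf', ?_⟩
  simp only [hf', mul_zero, add_zero] at hg
  exact hg

theorem zeroB : ∃ m n : ℝ, |m - mB| ≤ dd ∧ |n - nB| ≤ dd ∧ F1 m n = 0 ∧ F2 m n = 0 := by
  have hd : (0 : ℝ) < (dd : ℝ) := by norm_num [dd]
  have am := diff_m P1 N1 mB nB dd (-123) (-122) (by decide +kernel) (by decide +kernel)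
    (by decide +kernel) (by decide +kernel)
  have an := diff_n P1 N1 mB nB dd 30 31 (by decide +kernel) (by decide +kernel)
    (by decide +kernel) (by decide +kernel)
  have bm := diff_m P2 N2 mB nB dd 2170 2171 (by decide +kernel) (by decide +kernel)
    (by decide +kernel) (by decide +kernel)
  have bn := diff_n P2 N2 mB nB dd (-953) (-952) (by decide +kernel) (by decide +kernel)
    (by decide +kernel) (by decide +kernel)
  have c1 := center_bound P1 N1 mB nB (1 / 1000000000) (by decide +kernel)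
  have c2 := center_bound P2 N2 mB nB (1 / 1000000000) (by decide +kernel)
  push_cast at am an bm bn c1 c2
  obtain ⟨m, n, hm, hn, hf, hg⟩ := exists_common_zero (fun m n => -F1 m n)
    (fun m n => -(F2 m n + 18 * F1 m n)) F1_cont.neg
    (F2_cont.add (continuous_const.mul F1_cont)).neg
    mB nB dd 122 31 44 394 hd (by norm_num) (by norm_num) (by norm_num)
    (by
      intro n hn m m' hm hm' h
      have := am n hn m m' hm hm' h
      simp only [F1]; linarith [this.2])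
    (by
      intro m hm n n' hn hn' h
      have := an m hm n n' hn hn' h
      have h' : 0 ≤ n' - n := by linarith
      simp only [F1]; rw [abs_le]; constructor <;> linarith [this.1, this.2])
    (by
      intro n hn m m' hm hm' h
      have h1 := am n hn m m' hm hm' h
      have h2 := bm n hn m m' hm hm' h
      have h' : 0 ≤ m' - m := by linarith
      simp only [F1, F2]; rw [abs_le]
      constructor <;> linarith [h1.1, h1.2, h2.1, h2.2])
    (by
      intro m hm n n' hn hn' h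
      have h1 := an m hm n n' hn hn' h
      have h2 := bn m hm n n' hn hn' h
      have h' : 0 ≤ n' - n := by linarith
      simp only [F1, F2]
      linarith [h1.1, h1.2, h2.1, h2.2])
    (by
      have e : (dd : ℝ) = 1 / 1000000000 := by norm_num [dd]
      rw [e]; simp only [F1]; rw [abs_lt]
      constructor <;> linarith [c1.1, c1.2])
    (by
      have e : (dd : ℝ) = 1 / 1000000000 := by norm_num [dd]
      rw [e]; simp only [F1, F2]; rw [abs_lt]
      constructor <;> linarith [c1.1, c1.2, c2.1, c2.2])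
  have hf' : F1 m n = 0 := by simpa using hf
  refine ⟨m, n, hm, hn, hf', ?_⟩
  simp only [hf', mul_zero, add_zero] at hg
  simpa using hg

theorem checkA1 : checkT (mA - dd) (mA + dd) (nA - dd) (nA + dd) w1 k1
    (-2964225 / 1000000) (-2964227 / 1000000) = true := by decide +kernel

theorem checkA2 : checkT (mA - dd) (mA + dd) (nA - dd) (nA + dd) w2 k2
    (-2381066 / 1000000) (-2381064 / 1000000) = true := by decide +kernel

theorem checkB1 : checkT (mB - dd) (mB + dd) (nB - dd) (nB + dd) w1 k1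
    (-3002590 / 1000000) (-3002592 / 1000000) = true := by decide +kernel

theorem checkB2 : checkT (mB - dd) (mB + dd) (nB - dd) (nB + dd) w2 k2
    (-2852616 / 1000000) (-2852614 / 1000000) = true := by decide +kernel

theorem kneadSeq_ne : kneadSeq w1 k1 ≠ kneadSeq w2 k2 := by
  intro h
  have := congrFun h (-3)
  revert this
  decide

theorem mem_of_abs {x : ℝ} {c d : ℚ} (h : |x - c| ≤ d) : Mem x (c - d, c + d) := by
  obtain ⟨h1, h2⟩ := abs_le.1 h
  constructor
  · push_cast; linarith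
  · push_cast; linarith

/-- The statement asked about in Q1: two distinct kneading sequences determine the parameters. -/
def TwoSequencesDetermine : Prop :=
  ∀ a b : ℝ, InM a b → ∀ k ∈ kneadingSet a b, ∀ k' ∈ kneadingSet a b, k ≠ k' →
    ∀ a' b' : ℝ, InM a' b' → k ∈ kneadingSet a' b' → k' ∈ kneadingSet a' b' → (a', b') = (a, b)

theorem main : ∃ a b a' b' : ℝ, InM a b ∧ InM a' b' ∧ (a, b) ≠ (a', b') ∧
    kneadSeq w1 k1 ≠ kneadSeq w2 k2 ∧
    kneadSeq w1 k1 ∈ kneadingSet a b ∧ kneadSeq w2 k2 ∈ kneadingSet a b ∧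
    kneadSeq w1 k1 ∈ kneadingSet a' b' ∧ kneadSeq w2 k2 ∈ kneadingSet a' b' := by
  obtain ⟨m, n, hm, hn, hf, hg⟩ := zeroA
  obtain ⟨m', n', hm', hn', hf', hg'⟩ := zeroB
  have s2 : (1.4142 : ℝ) < √2 := by
    rw [Real.lt_sqrt (by norm_num)]; norm_num
  have M := mem_of_abs hm
  have N := mem_of_abs hn
  have M' := mem_of_abs hm'
  have N' := mem_of_abs hn'
  have A1 : (1.9158 : ℝ) ≤ m := le_trans (by norm_num [mA, dd]) M.1
  have A2 : m ≤ 1.9159 := le_trans M.2 (by norm_num [mA, dd])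
  have A3 : (0.0866 : ℝ) ≤ n := le_trans (by norm_num [nA, dd]) N.1
  have A4 : n ≤ 0.0867 := le_trans N.2 (by norm_num [nA, dd])
  have B1 : (1.9496 : ℝ) ≤ m' := le_trans (by norm_num [mB, dd]) M'.1
  have B2 : m' ≤ 1.9497 := le_trans M'.2 (by norm_num [mB, dd])
  have B3 : (0.2102 : ℝ) ≤ n' := le_trans (by norm_num [nB, dd]) N'.1
  have B4 : n' ≤ 0.2103 := le_trans N'.2 (by norm_num [nB, dd])
  refine ⟨m - n, m * n, m' - n', m' * n', ?_, ?_, ?_, kneadSeq_ne, ?_, ?_, ?_, ?_⟩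
  · refine ⟨by positivity, ?_, ?_⟩
    · nlinarith
    · nlinarith
  · refine ⟨by positivity, ?_, ?_⟩
    · nlinarith
    · nlinarith
  · intro h
    have h2 := (Prod.mk.inj h).2
    nlinarith
  · exact knead_of_checkT checkA1 (by norm_num [mA, dd]) (by norm_num [nA, dd])
      (by norm_num [nA, dd]) M N (by rw [RR1, hf, mul_zero])
  · exact knead_of_checkT checkA2 (by norm_num [mA, dd]) (by norm_num [nA, dd])
      (by norm_num [nA, dd]) M N (by rw [RR2, hg, mul_zero])
  · exact knead_of_checkT checkB1 (by norm_num [mB, dd]) (by norm_num [nB, dd])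
      (by norm_num [nB, dd]) M' N' (by rw [RR1, hf', mul_zero])
  · exact knead_of_checkT checkB2 (by norm_num [mB, dd]) (by norm_num [nB, dd])
      (by norm_num [nB, dd]) M' N' (by rw [RR2, hg', mul_zero])

theorem result :
    (∃ a b a' b' : ℝ, InM a b ∧ InM a' b' ∧ (a, b) ≠ (a', b') ∧
      kneadSeq w1 k1 ≠ kneadSeq w2 k2 ∧
      kneadSeq w1 k1 ∈ kneadingSet a b ∧ kneadSeq w2 k2 ∈ kneadingSet a b ∧
      kneadSeq w1 k1 ∈ kneadingSet a' b' ∧ kneadSeq w2 k2 ∈ kneadingSet a' b') ∧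
    ¬ TwoSequencesDetermine := by
  refine ⟨main, fun h => ?_⟩
  obtain ⟨a, b, a', b', h1, h2, h3, h4, h5, h6, h7, h8⟩ := main
  exact h3 (h a b h1 _ h5 _ h6 h4 a' b' h2 h7 h8).symm

end

end Pool.Agent.Results.MP_d76ccc_an.TwoKneading
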